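import Pool.Agent.Helper7.EC_E.GoalsM
import Pool.Agent.Helper80.EC_F.Tool

/-!
# MP_ecc237_nt, PART E, packet MTH
-/

set_option autoImplicit false

open MeasureTheory Filter Topology Set

namespace EC237.ZE.PkMTH

theorem w0_nonneg (j : ℕ) : 0 ≤ w0 j := by
  unfold w0; split_ifs <;> norm_num

theorem w0_le (j : ℕ) : w0 j ≤ 1 := by
  unfold w0; split_ifs <;> norm_num

/-- the term of `τ_k(t)/t`. -/
noncomputable def ft (k : ℤ) (t : ℝ) (j : ℕ) : ℝ :=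
  w0 j * (|(k:ℝ)| + 2 * j) / (t ^ 2 + (|(k:ℝ)| + 2 * j) ^ 2) ^ 2

theorem A_nonneg (k : ℤ) (j : ℕ) : 0 ≤ |(k:ℝ)| + 2 * j := by positivity

theorem ft_nonneg (k : ℤ) (t : ℝ) (j : ℕ) : 0 ≤ ft k t j := by
  unfold ft
  exact div_nonneg (mul_nonneg (w0_nonneg j) (A_nonneg k j)) (by positivity)

theorem ft_le (k : ℤ) (t : ℝ) (j : ℕ) : ft k t (j + 1) ≤ 1 / ((j:ℝ) + 1) ^ 3 := by
  unfold ft
  have hj : (0:ℝ) < (j:ℝ) + 1 := by positivity
  have hA : (j:ℝ) + 1 ≤ |(k:ℝ)| + 2 * ((j + 1 : ℕ) : ℝ) := by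
    push_cast
    have := abs_nonneg (k:ℝ)
    linarith
  set A := |(k:ℝ)| + 2 * ((j + 1 : ℕ) : ℝ) with hAdef
  have hA0 : 0 < A := lt_of_lt_of_le hj hA
  calc w0 (j + 1) * A / (t ^ 2 + A ^ 2) ^ 2 ≤ 1 * A / (A ^ 2) ^ 2 := by
        apply div_le_div₀
        · positivity
        · exact mul_le_mul_of_nonneg_right (w0_le _) hA0.le
        · positivity
        · exact pow_le_pow_left₀ (by positivity) (by nlinarith [sq_nonneg t]) 2
    _ = 1 / A ^ 3 := by field_simp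
    _ ≤ 1 / ((j:ℝ) + 1) ^ 3 := by
        apply one_div_le_one_div_of_le (by positivity)
        exact pow_le_pow_left₀ hj.le hA 3

theorem ft_summable (k : ℤ) (t : ℝ) : Summable (ft k t) := by
  rw [← summable_nat_add_iff 1]
  refine Summable.of_nonneg_of_le (fun j => ft_nonneg k t (j + 1)) (ft_le k t) ?_
  have h := (Real.summable_one_div_nat_pow (p := 3)).2 (by norm_num)
  have h2 := (summable_nat_add_iff 1).2 h
  refine h2.congr fun j => ?_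
  push_cast
  rfl

/-- the term of the double series. -/
noncomputable def FF (k : ℤ) (q : ℕ × ℕ) (t : ℝ) : ℝ :=
  t ^ 2 / (t ^ 2 + (k:ℝ) ^ 2) * (ft k t q.1 * ft k t q.2)

theorem FF_nonneg (k : ℤ) (q : ℕ × ℕ) (t : ℝ) : 0 ≤ FF k q t := by
  unfold FF
  exact mul_nonneg (by positivity) (mul_nonneg (ft_nonneg _ _ _) (ft_nonneg _ _ _))

theorem taur_sq (k : ℤ) (t : ℝ) : taur k t ^ 2 / (t ^ 2 + (k:ℝ) ^ 2) = ∑' q : ℕ × ℕ, FF k q t := by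
  have h1 : taur k t = t * ∑' j : ℕ, ft k t j := rfl
  have hn : Summable fun j => ‖ft k t j‖ := (ft_summable k t).norm
  have h2 := tsum_mul_tsum_of_summable_norm hn hn
  have h3 : (∑' q : ℕ × ℕ, FF k q t) =
      t ^ 2 / (t ^ 2 + (k:ℝ) ^ 2) * ∑' q : ℕ × ℕ, (ft k t q.1 * ft k t q.2) := by
    rw [← tsum_mul_left]
    rfl
  rw [h3, ← h2, h1]
  ring

theorem FF_eq (k : ℤ) (i j : ℕ) (t : ℝ) : FF k (i, j) t = w0 i * w0 j *
    ((|(k:ℝ)| + 2 * i) * (|(k:ℝ)| + 2 * j) * t ^ 2 / ((t ^ 2 + |(k:ℝ)| ^ 2) *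
      (t ^ 2 + (|(k:ℝ)| + 2 * i) ^ 2) ^ 2 * (t ^ 2 + (|(k:ℝ)| + 2 * j) ^ 2) ^ 2)) := by
  unfold FF ft
  rw [sq_abs]
  simp only [div_eq_mul_inv, mul_inv]
  ring

theorem FF_int (h1 : G_MI) (k : ℤ) (i j : ℕ) :
    Integrable (FF k (i, j)) ∧ ∫ t : ℝ, FF k (i, j) t = Real.pi / 128 * gT (k, i, j) := by
  have hf : FF k (i, j) = fun t => w0 i * w0 j *
    ((|(k:ℝ)| + 2 * i) * (|(k:ℝ)| + 2 * j) * t ^ 2 / ((t ^ 2 + |(k:ℝ)| ^ 2) *
      (t ^ 2 + (|(k:ℝ)| + 2 * i) ^ 2) ^ 2 * (t ^ 2 + (|(k:ℝ)| + 2 * j) ^ 2) ^ 2)) :=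
    funext (FF_eq k i j)
  rcases (A_nonneg k i).eq_or_lt with hi | hi
  · have hP : |(k:ℝ)| + (i:ℝ) = 0 := by
      have := abs_nonneg (k:ℝ)
      have h' : (0:ℝ) ≤ i := Nat.cast_nonneg i
      linarith
    have h0 : FF k (i, j) = fun _ => 0 := by
      rw [hf]
      funext t
      rw [← hi]
      simp
    rw [h0]
    refine ⟨integrable_zero _ _ _, ?_⟩
    simp [gT, gg, hP]
  rcases (A_nonneg k j).eq_or_lt with hj | hj
  · have hP : |(k:ℝ)| + (j:ℝ) = 0 := by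
      have := abs_nonneg (k:ℝ)
      have h' : (0:ℝ) ≤ j := Nat.cast_nonneg j
      linarith
    have h0 : FF k (i, j) = fun _ => 0 := by
      rw [hf]
      funext t
      rw [← hj]
      simp
    rw [h0]
    refine ⟨integrable_zero _ _ _, ?_⟩
    simp [gT, gg, hP]
  obtain ⟨g1, g2⟩ := h1 |(k:ℝ)| (|(k:ℝ)| + 2 * i) (|(k:ℝ)| + 2 * j) (abs_nonneg _) hi hj
  rw [hf]
  refine ⟨g1.const_mul _, ?_⟩
  rw [integral_const_mul, g2]
  have e1 : (|(k:ℝ)| + 2 * i + (|(k:ℝ)| + 2 * j)) / 2 = |(k:ℝ)| + i + j := by ring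
  have e2 : (|(k:ℝ)| + (|(k:ℝ)| + 2 * i)) / 2 = |(k:ℝ)| + i := by ring
  have e3 : (|(k:ℝ)| + (|(k:ℝ)| + 2 * j)) / 2 = |(k:ℝ)| + j := by ring
  rw [e1, e2, e3]
  simp only [gT]
  ring

theorem thm (h1 : EC237.ZE.G_MI) (h2 : EC237.ZE.G_MK) : EC237.ZE.G_MTH := by
  have h2' : HasSum gT (13 / 2 * zeta5) := h2
  have hs : ∀ k : ℤ, Summable fun q : ℕ × ℕ => gT (k, q) := fun k =>
    h2'.summable.prod_factor k
  have hI : ∀ (k : ℤ) (q : ℕ × ℕ), Integrable (FF k q) := fun k q => (FF_int h1 k q.1 q.2).1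
  have hE : ∀ (k : ℤ) (q : ℕ × ℕ), ∫ t : ℝ, FF k q t = Real.pi / 128 * gT (k, q) :=
    fun k q => (FF_int h1 k q.1 q.2).2
  have hN : ∀ (k : ℤ) (q : ℕ × ℕ), ∫ t : ℝ, ‖FF k q t‖ = Real.pi / 128 * gT (k, q) := by
    intro k q
    rw [← hE k q]
    refine integral_congr_ae (Eventually.of_forall fun t => ?_)
    exact Real.norm_of_nonneg (FF_nonneg k q t)
  have hNs : ∀ k : ℤ, Summable fun q : ℕ × ℕ => ∫ t : ℝ, ‖FF k q t‖ := by
    intro k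
    simp only [hN]
    exact (hs k).mul_left _
  have hfun : ∀ k : ℤ, (fun t : ℝ => taur k t ^ 2 / (t ^ 2 + (k:ℝ) ^ 2)) =
      fun t => ∑' q : ℕ × ℕ, FF k q t := fun k => funext (taur_sq k)
  refine ⟨fun k => ?_, ?_⟩
  · rw [hfun]
    exact EC237.PF.integrable_tsum (hI k) (hNs k)
  · have hval : ∀ k : ℤ, HasSum (fun q : ℕ × ℕ => Real.pi / 128 * gT (k, q))
        (∫ t : ℝ, taur k t ^ 2 / (t ^ 2 + (k:ℝ) ^ 2)) := by
      intro k
      have h3 := hasSum_integral_of_summable_integral_norm (hI k) (hNs k)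
      simp only [hE] at h3
      rw [hfun]
      exact h3
    have h4 : HasSum (fun q : ℤ × ℕ × ℕ => Real.pi / 128 * gT q)
        (Real.pi / 128 * (13 / 2 * zeta5)) := h2'.mul_left _
    exact h4.prod_fiberwise hval

end EC237.ZE.PkMTH
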