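import Pool.Agent.Helper7.EC_E.GoalsR

/-!
# MP_ecc237_nt, PART E, packet NS
-/

set_option autoImplicit false

open MeasureTheory Filter Topology Set

namespace EC237.ZE.PkNS

theorem Sf_per (r : ℕ) (c c' : ℤ) (ξ : ℂ) (h : (c - c') % 6 = 0) : Sf r c ξ = Sf r c' ξ := by
  obtain ⟨t, ht⟩ : ∃ t : ℤ, c = c' + 6 * t := ⟨(c - c') / 6, by omega⟩
  subst ht
  unfold Sf
  split_ifs with hr
  · have e : (Real.pi:ℂ) * (((c' + 6 * t : ℤ):ℂ) + ξ) / 6 =
        Real.pi * ((c':ℂ) + ξ) / 6 + (t:ℂ) * Real.pi := by push_cast; ring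
    have hp : Function.Periodic (fun x : ℂ => Complex.cos x / Complex.sin x) (Real.pi:ℂ) := by
      simpa only [Function.Periodic] using! Complex.cos_antiperiodic.div Complex.sin_antiperiodic
    have h1 := (hp.int_mul t) (Real.pi * ((c':ℂ) + ξ) / 6)
    rw [e, Complex.cot_eq_cos_div_sin, Complex.cot_eq_cos_div_sin]
    exact congrArg _ h1
  · rw [← (Equiv.addRight t).tsum_eq (fun j : ℤ => 1 / (6 * (j:ℂ) + (c':ℂ) + ξ) ^ r)]
    congr 1
    funext j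
    simp only [Equiv.coe_addRight]
    push_cast
    congr 2
    ring

/-- first place -/
noncomputable def xk (z : ℝ) (c n j : ℤ) : ℂ :=
  6 * (j:ℂ) + ((c - 3 * n : ℤ):ℂ) + -(Complex.I * (n:ℂ) * z)

/-- second place -/
noncomputable def yl (z : ℝ) (s : ℤ × ℤ) (c n j : ℤ) : ℂ :=
  (s.2:ℂ) - ((c - 3 * n : ℤ):ℂ) - 6 * (j:ℂ) + Complex.I * ((s.1 - n : ℤ):ℂ) * z

theorem Xz_k (z : ℝ) (c n j : ℤ) : Xz z (n, 6 * j + (c - 3 * n)) = xk z c n j := by
  unfold Xz xk; push_cast; ring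

theorem Yz_k (z : ℝ) (c n j : ℤ) : Yz z (n, 6 * j + (c - 3 * n)) = star (xk z c n j) := by
  unfold Yz xk
  simp only [star_add, star_neg, star_mul', Complex.star_def, Complex.conj_I, Complex.conj_ofReal,
    map_intCast, map_ofNat]
  push_cast; ring

theorem Yz_l (z : ℝ) (s : ℤ × ℤ) (c n j : ℤ) :
    Yz z (s - (n, 6 * j + (c - 3 * n))) = yl z s c n j := by
  unfold Yz yl
  simp only [Prod.fst_sub, Prod.snd_sub]
  push_cast; ring

theorem Xz_l (z : ℝ) (s : ℤ × ℤ) (c n j : ℤ) :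
    Xz z (s - (n, 6 * j + (c - 3 * n))) = star (yl z s c n j) := by
  unfold Xz yl
  simp only [star_add, star_sub, star_mul', Complex.star_def, Complex.conj_I, Complex.conj_ofReal,
    map_intCast, map_ofNat, Prod.fst_sub, Prod.snd_sub]
  push_cast; ring

/-- the three odd classes -/
def Odd3 (c : ℤ) : Prop := c = 1 ∨ c = 3 ∨ c = 5

theorem odd3_ne {c : ℤ} (h : Odd3 c) : c % 6 ≠ 0 := by
  rcases h with h | h | h <;> subst h <;> norm_num

theorem incl_ne {c : ℤ} (h : Odd3 c) {k : ℤ × ℤ} (hk : InCl c k) : k ≠ 0 := by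
  rintro rfl
  have := odd3_ne h
  unfold InCl at hk
  simp only [Prod.fst_zero, Prod.snd_zero] at hk
  omega

theorem xk_ne {z : ℝ} (hz : 0 < z) {c : ℤ} (h : Odd3 c) (n j : ℤ) : xk z c n j ≠ 0 := by
  intro h0
  have him := congrArg Complex.im h0
  have hre := congrArg Complex.re h0
  unfold xk at him hre
  simp at him hre
  have hn : n = 0 := by
    rcases him with h | h
    · exact h
    · exact absurd h hz.ne'
  subst hn
  have h1 : (6 * (j:ℝ) + (c:ℝ)) = 0 := by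
    simpa using hre
  have h2 : 6 * j + c = 0 := by exact_mod_cast h1
  have := odd3_ne h
  omega

theorem yl_ne {z : ℝ} (hz : 0 < z) {c c2 : ℤ} (h2 : Odd3 c2) {s : ℤ × ℤ} (hs : InCl (c + c2) s)
    (n j : ℤ) : yl z s c n j ≠ 0 := by
  intro h0
  have him := congrArg Complex.im h0
  have hre := congrArg Complex.re h0
  unfold yl at him hre
  simp at him hre
  have hn : s.1 = n := by
    rcases him with h | h
    · have h' : (s.1:ℝ) = n := by linarith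
      exact_mod_cast h'
    · exact absurd h hz.ne'
  have h1 : ((s.2:ℝ) - ((c:ℝ) - 3 * n) - 6 * j) = 0 := by
    simpa using hre
  have h3 : s.2 - (c - 3 * n) - 6 * j = 0 := by exact_mod_cast h1
  have := odd3_ne h2
  unfold InCl at hs
  omega

theorem fib (c1 c2 : ℤ) (s : ℤ × ℤ) (hs : InCl (c1 + c2) s) (n : ℤ) (G : ℤ × ℤ → ℂ) (v : ℂ)
    (h : HasSum (fun j : ℤ => G (n, 6 * j + (c1 - 3 * n))) v) :
    HasSum (fun m : ℤ => if InCl c1 (n, m) ∧ InCl c2 (s - (n, m)) then G (n, m) else 0) v := by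
  have hinj : Function.Injective (fun j : ℤ => 6 * j + (c1 - 3 * n)) := by
    intro a b hab
    simp only at hab
    omega
  refine (hinj.hasSum_iff ?_).1 ?_
  · intro m hm
    rw [if_neg]
    rintro ⟨h1, -⟩
    apply hm
    unfold InCl at h1
    simp only at h1
    refine ⟨(m + 3 * n - c1) / 6, ?_⟩
    simp only
    omega
  · have he : ((fun m : ℤ => if InCl c1 (n, m) ∧ InCl c2 (s - (n, m)) then G (n, m) else 0) ∘
        fun j : ℤ => 6 * j + (c1 - 3 * n)) = fun j : ℤ => G (n, 6 * j + (c1 - 3 * n)) := by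
      funext j
      simp only [Function.comp]
      rw [if_pos]
      unfold InCl at hs ⊢
      simp only [Prod.fst_sub, Prod.snd_sub]
      constructor <;> omega
    rw [he]
    exact h

theorem asm (h1 : EC237.ZE.G_RS) {z : ℝ} (hz : 0 < z) (s : ℤ × ℤ) (hs0 : s ≠ 0) {c1 c2 : ℤ}
    (hc1 : Odd3 c1) (hc2 : Odd3 c2) (a1 a2 : ℤ) (ha1 : |a1| ≤ 1) (ha2 : |a2| ≤ 1) (i : ℕ)
    (hi : i ≤ 2) (hs : InCl (c1 + c2) s) (g : ℤ → ℂ)
    (hg : ∀ n : ℤ, HasSum (fun j : ℤ => PowerSeries.coeff i (XX ((z⁻¹:ℝ):ℂ)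
      ((n, 6 * j + (c1 - 3 * n)), a1) (s - (n, 6 * j + (c1 - 3 * n)), a2))) (g n)) :
    HasSum g (XS c1 c2 a1 a2 i ((z⁻¹:ℝ):ℂ) s) := by
  obtain ⟨C, -, hC⟩ := h1 z⁻¹ (inv_pos.2 hz)
  obtain ⟨hsum, -⟩ := hC s hs0 c1 c2 hc1 hc2 a1 a2 ha1 ha2 i hi
  refine hsum.hasSum.prod_fiberwise fun n => ?_
  exact fib c1 c2 s hs n (fun k => PowerSeries.coeff i (XX ((z⁻¹:ℝ):ℂ) (k, a1) (s - k, a2))) _ (hg n)

theorem k_ne {c1 : ℤ} (hc1 : Odd3 c1) (n j : ℤ) :
    ((n, 6 * j + (c1 - 3 * n)) : ℤ × ℤ) ≠ 0 := by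
  apply incl_ne hc1
  unfold InCl
  simp only
  omega

theorem l_ne {c1 c2 : ℤ} (hc2 : Odd3 c2) {s : ℤ × ℤ} (hs : InCl (c1 + c2) s) (n j : ℤ) :
    s - ((n, 6 * j + (c1 - 3 * n)) : ℤ × ℤ) ≠ 0 := by
  apply incl_ne hc2
  unfold InCl at hs ⊢
  simp only [Prod.fst_sub, Prod.snd_sub]
  omega

/-- the `CC` package in our notation -/
theorem cc (h2 : EC237.ZE.G_CC) {z : ℝ} (hz : 0 < z) (s : ℤ × ℤ) {c1 c2 : ℤ}
    (hc1 : Odd3 c1) (hc2 : Odd3 c2) (hs : InCl (c1 + c2) s) (n : ℤ) :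
    (Dz z s n ≠ 0 →
      HasSum (fun j : ℤ => 1 / (xk z c1 n j * yl z s c1 n j))
        ((Sa 1 c1 z n + Sb 1 c2 z (s.1 - n)) / Dz z s n) ∧
      HasSum (fun j : ℤ => 1 / (xk z c1 n j ^ 2 * yl z s c1 n j))
        (Sa 2 c1 z n / Dz z s n + (Sa 1 c1 z n + Sb 1 c2 z (s.1 - n)) / Dz z s n ^ 2) ∧
      HasSum (fun j : ℤ => 1 / (xk z c1 n j * yl z s c1 n j ^ 2))
        (Sb 2 c2 z (s.1 - n) / Dz z s n +
          (Sa 1 c1 z n + Sb 1 c2 z (s.1 - n)) / Dz z s n ^ 2) ∧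
      HasSum (fun j : ℤ => 1 / (xk z c1 n j ^ 3 * yl z s c1 n j) +
          1 / (xk z c1 n j ^ 2 * yl z s c1 n j ^ 2) + 1 / (xk z c1 n j * yl z s c1 n j ^ 3))
        ((Sa 3 c1 z n + Sb 3 c2 z (s.1 - n)) / Dz z s n +
          2 * (Sa 2 c1 z n + Sb 2 c2 z (s.1 - n)) / Dz z s n ^ 2 +
          4 * (Sa 1 c1 z n + Sb 1 c2 z (s.1 - n)) / Dz z s n ^ 3)) ∧
    (Dz z s n = 0 →
      HasSum (fun j : ℤ => 1 / (xk z c1 n j * yl z s c1 n j)) (-Sa 2 c1 z n) ∧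
      HasSum (fun j : ℤ => 1 / (xk z c1 n j ^ 3 * yl z s c1 n j) +
          1 / (xk z c1 n j ^ 2 * yl z s c1 n j ^ 2) + 1 / (xk z c1 n j * yl z s c1 n j ^ 3))
        (-Sa 4 c1 z n)) := by
  have h := h2 (c1 - 3 * n) s.2 (-(Complex.I * (n:ℂ) * z))
    (Complex.I * ((s.1 - n : ℤ):ℂ) * z) (fun j => xk_ne hz hc1 n j)
    (fun j => yl_ne hz hc2 hs n j)
  have hD : (s.2:ℂ) + -(Complex.I * (n:ℂ) * z) + Complex.I * ((s.1 - n : ℤ):ℂ) * z = Dz z s n := by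
    unfold Dz; push_cast; ring
  have hSb : ∀ r : ℕ, Sf r (s.2 - (c1 - 3 * n)) (Complex.I * ((s.1 - n : ℤ):ℂ) * z) =
      Sb r c2 z (s.1 - n) := by
    intro r
    unfold Sb
    apply Sf_per
    unfold InCl at hs
    omega
  have hSa : ∀ r : ℕ, Sf r (c1 - 3 * n) (-(Complex.I * (n:ℂ) * z)) = Sa r c1 z n := fun r => rfl
  rw [hD] at h
  simp only [hSa, hSb] at h
  exact h

theorem Dz_ne {z : ℝ} {s : ℤ × ℤ} (h : s.2 ≠ 0) (n : ℤ) : Dz z s n ≠ 0 := by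
  intro h0
  have hre := congrArg Complex.re h0
  unfold Dz at hre
  simp at hre
  exact h (by exact_mod_cast hre)

theorem st (a b : ℂ) (p q : ℕ) : star (1 / (a ^ p * b ^ q)) = 1 / (star a ^ p * star b ^ q) := by
  simp only [Complex.star_def, map_div₀, map_one, map_mul, map_pow]

theorem thm (h1 : EC237.ZE.G_RS) (h2 : EC237.ZE.G_CC) (h3 : EC237.ZE.G_NX) : EC237.ZE.G_NS := by
  intro z hz s
  have o1 : Odd3 1 := Or.inl rfl
  have o3 : Odd3 3 := Or.inr (Or.inl rfl)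
  have o5 : Odd3 5 := Or.inr (Or.inr rfl)
  have ss : ∀ {f : ℤ → ℂ} {a : ℂ}, HasSum f a → HasSum (fun j => star (f j)) (star a) :=
    fun h => h.star
  have s11 : ∀ a b : ℂ, star (1 / (a * b)) = 1 / (star a * star b) := fun a b => by
    simpa only [pow_one] using st a b 1 1
  have s21 : ∀ a b : ℂ, star (1 / (a ^ 2 * b)) = 1 / (star a ^ 2 * star b) := fun a b => by
    simpa only [pow_one] using st a b 2 1
  have s12 : ∀ a b : ℂ, star (1 / (a * b ^ 2)) = 1 / (star a * star b ^ 2) := fun a b => by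
    simpa only [pow_one] using st a b 1 2
  have s31 : ∀ a b : ℂ, star (1 / (a ^ 3 * b)) = 1 / (star a ^ 3 * star b) := fun a b => by
    simpa only [pow_one] using st a b 3 1
  have s13 : ∀ a b : ℂ, star (1 / (a * b ^ 3)) = 1 / (star a * star b ^ 3) := fun a b => by
    simpa only [pow_one] using st a b 1 3
  have s22 : ∀ a b : ℂ, star (1 / (a ^ 2 * b ^ 2)) = 1 / (star a ^ 2 * star b ^ 2) := fun a b =>
    st a b 2 2
  refine ⟨fun hs => ?_, fun hs => ?_, fun hs hs0 => ?_, fun hs hs0 => ?_⟩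
  · -- Y
    have hs2 : s.2 ≠ 0 := by
      intro h; unfold InCl at hs; omega
    have hs0 : s ≠ 0 := by
      rintro rfl; exact hs2 rfl
    have hs' : InCl (1 + 1) s := hs
    refine asm h1 hz s hs0 o1 o1 1 0 (by norm_num) (by norm_num) 1 (by norm_num) hs' _ ?_
    intro n
    obtain ⟨c, -⟩ := cc h2 hz s o1 o1 hs' n
    obtain ⟨-, c2, -, -⟩ := c (Dz_ne hs2 n)
    have h4 := (c2.add (ss c2)).mul_left (-(Complex.I * z ^ 3))
    have he : (fun j : ℤ => PowerSeries.coeff 1 (XX ((z⁻¹:ℝ):ℂ)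
        ((n, 6 * j + (1 - 3 * n)), 1) (s - (n, 6 * j + (1 - 3 * n)), 0))) =
        fun j => -(Complex.I * z ^ 3) * (1 / (xk z 1 n j ^ 2 * yl z s 1 n j) +
          star (1 / (xk z 1 n j ^ 2 * yl z s 1 n j))) := by
      funext j
      rw [(h3 z hz _ _ (k_ne o1 n j) (l_ne o1 hs' n j)).1, Xz_k, Yz_k, Xz_l, Yz_l, s21]
    rw [he]
    exact h4
  · -- W
    have hs2 : (-s).2 ≠ 0 := by
      intro h; unfold InCl at hs; simp only [Prod.snd_neg] at h; omega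
    have hs0 : -s ≠ 0 := by
      intro h; rw [h] at hs2; exact hs2 rfl
    have hs' : InCl (1 + 3) (-s) := by
      unfold InCl at hs ⊢; simp only [Prod.fst_neg, Prod.snd_neg]; omega
    refine asm h1 hz (-s) hs0 o1 o3 1 (-1) (by norm_num) (by norm_num) 1 (by norm_num) hs' _ ?_
    intro n
    obtain ⟨c, -⟩ := cc h2 hz (-s) o1 o3 hs' n
    obtain ⟨-, c2, c3, -⟩ := c (Dz_ne hs2 n)
    have c4 := c2.add c3
    have h4 := (c4.add (ss c4)).mul_left (-(Complex.I * z ^ 3))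
    have he : (fun j : ℤ => PowerSeries.coeff 1 (XX ((z⁻¹:ℝ):ℂ)
        ((n, 6 * j + (1 - 3 * n)), 1) (-s - (n, 6 * j + (1 - 3 * n)), -1))) =
        fun j => -(Complex.I * z ^ 3) * ((1 / (xk z 1 n j ^ 2 * yl z (-s) 1 n j) +
          1 / (xk z 1 n j * yl z (-s) 1 n j ^ 2)) +
          star (1 / (xk z 1 n j ^ 2 * yl z (-s) 1 n j) +
          1 / (xk z 1 n j * yl z (-s) 1 n j ^ 2))) := by
      funext j
      rw [(h3 z hz _ _ (k_ne o1 n j) (l_ne o3 hs' n j)).2.1, Xz_k, Yz_k, Xz_l, Yz_l, star_add,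
        s21, s12]
    rw [he]
    have hv : PW z (-s) n = Sa 2 1 z n / Dz z (-s) n +
        (Sa 1 1 z n + Sb 1 3 z ((-s).1 - n)) / Dz z (-s) n ^ 2 +
        (Sb 2 3 z ((-s).1 - n) / Dz z (-s) n +
        (Sa 1 1 z n + Sb 1 3 z ((-s).1 - n)) / Dz z (-s) n ^ 2) := by
      unfold PW; ring
    rw [hv]
    exact h4
  · -- E0
    have hs' : InCl (1 + 5) s := by
      unfold InCl at hs ⊢; omega
    refine asm h1 hz s hs0 o1 o5 1 (-1) (by norm_num) (by norm_num) 0 (by norm_num) hs' _ ?_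
    intro n
    obtain ⟨c, d⟩ := cc h2 hz s o1 o5 hs' n
    have hP : HasSum (fun j : ℤ => 1 / (xk z 1 n j * yl z s 1 n j)) (P0 z s n) := by
      unfold P0
      split_ifs with hD
      · exact (d hD).1
      · exact (c hD).1
    have h4 := (hP.sub (ss hP)).mul_left ((z:ℂ) ^ 2)
    have he : (fun j : ℤ => PowerSeries.coeff 0 (XX ((z⁻¹:ℝ):ℂ)
        ((n, 6 * j + (1 - 3 * n)), 1) (s - (n, 6 * j + (1 - 3 * n)), -1))) =
        fun j => (z:ℂ) ^ 2 * (1 / (xk z 1 n j * yl z s 1 n j) -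
          star (1 / (xk z 1 n j * yl z s 1 n j))) := by
      funext j
      rw [(h3 z hz _ _ (k_ne o1 n j) (l_ne o5 hs' n j)).2.2.1, Xz_k, Yz_k, Xz_l, Yz_l, s11]
    rw [he]
    exact h4
  · -- E2
    have hs' : InCl (1 + 5) s := by
      unfold InCl at hs ⊢; omega
    refine asm h1 hz s hs0 o1 o5 1 (-1) (by norm_num) (by norm_num) 2 (by norm_num) hs' _ ?_
    intro n
    obtain ⟨c, d⟩ := cc h2 hz s o1 o5 hs' n
    have hP : HasSum (fun j : ℤ => 1 / (xk z 1 n j ^ 3 * yl z s 1 n j) +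
          1 / (xk z 1 n j ^ 2 * yl z s 1 n j ^ 2) + 1 / (xk z 1 n j * yl z s 1 n j ^ 3))
        (P2 z s n) := by
      unfold P2
      split_ifs with hD
      · exact (d hD).2
      · exact (c hD).2.2.2
    have h4 := (hP.sub (ss hP)).mul_left (-(z:ℂ) ^ 4)
    have he : (fun j : ℤ => PowerSeries.coeff 2 (XX ((z⁻¹:ℝ):ℂ)
        ((n, 6 * j + (1 - 3 * n)), 1) (s - (n, 6 * j + (1 - 3 * n)), -1))) =
        fun j => -(z:ℂ) ^ 4 * ((1 / (xk z 1 n j ^ 3 * yl z s 1 n j) +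
          1 / (xk z 1 n j ^ 2 * yl z s 1 n j ^ 2) + 1 / (xk z 1 n j * yl z s 1 n j ^ 3)) -
          star (1 / (xk z 1 n j ^ 3 * yl z s 1 n j) +
          1 / (xk z 1 n j ^ 2 * yl z s 1 n j ^ 2) + 1 / (xk z 1 n j * yl z s 1 n j ^ 3))) := by
      funext j
      rw [(h3 z hz _ _ (k_ne o1 n j) (l_ne o5 hs' n j)).2.2.2, Xz_k, Yz_k, Xz_l, Yz_l, star_add,
        star_add, s31, s22, s13]
    rw [he]
    exact h4

end EC237.ZE.PkNS
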